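import Mathlib

/-!
# The maximum of `σ_V(H) - σ_E(H)` is one

Take two surjective walks at distance at least `k` all the time. Whenever the first walker is at
`x`, let him visit each neighbour of `x` and come back while the second one waits, and conversely.
The new walks use all edges and keep distance at least `k - 1`, so `σ_V ≤ σ_E + 1`. For the 3-sun
(a triangle with a further vertex joined to the two ends of each of its edges) `σ_V = 2` and
`σ_E = 1`.
-/

set_option autoImplicit false

namespace Pool.Agent.Results.MP_5796a1_co.MaximumGap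

open SimpleGraph

variable {V W : Type}

/-- A weak homomorphism maps adjacent vertices to equal or adjacent vertices. -/
def IsWeakHom (G : SimpleGraph W) (H : SimpleGraph V) (f : W → V) : Prop :=
  ∀ u v, G.Adj u v → f u = f v ∨ H.Adj (f u) (f v)

/-- The map is edge surjective: it is surjective and every edge of `H` is the image of an edge. -/
def IsEdgeSurjective (G : SimpleGraph W) (H : SimpleGraph V) (f : W → V) : Prop :=
  Function.Surjective f ∧ ∀ u v, H.Adj u v → ∃ x y, G.Adj x y ∧ f x = u ∧ f y = v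

/-- The values `m_P(f, g)` (the least distance of `f u` and `g u`) over all paths `P` (with
`n ≥ 1` vertices) and all pairs of surjective weak homomorphisms `f, g : P → H`. -/
def vertexValues (H : SimpleGraph V) : Set ℕ :=
  {k | ∃ n : ℕ, 1 ≤ n ∧ ∃ f g : Fin n → V, IsWeakHom (pathGraph n) H f ∧
    IsWeakHom (pathGraph n) H g ∧ Function.Surjective f ∧ Function.Surjective g ∧
    IsLeast (Set.range fun u => H.dist (f u) (g u)) k}

/-- The same for pairs of edge surjective weak homomorphisms. -/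
def edgeValues (H : SimpleGraph V) : Set ℕ :=
  {k | ∃ n : ℕ, 1 ≤ n ∧ ∃ f g : Fin n → V, IsWeakHom (pathGraph n) H f ∧
    IsWeakHom (pathGraph n) H g ∧ IsEdgeSurjective (pathGraph n) H f ∧
    IsEdgeSurjective (pathGraph n) H g ∧ IsLeast (Set.range fun u => H.dist (f u) (g u)) k}

/-- the strong vertex span `σ_V(H)` -/
noncomputable def strongVertexSpan (H : SimpleGraph V) : ℕ := sSup (vertexValues H)

/-- the strong edge span `σ_E(H)` -/
noncomputable def strongEdgeSpan (H : SimpleGraph V) : ℕ := sSup (edgeValues H)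

/-! ### Lists of pairs -/

/-- one step of the two walkers -/
def Step (H : SimpleGraph V) (p q : V × V) : Prop :=
  (p.1 = q.1 ∨ H.Adj p.1 q.1) ∧ (p.2 = q.2 ∨ H.Adj p.2 q.2)

lemma exists_least (H : SimpleGraph V) {n : ℕ} (hn : 1 ≤ n) (f g : Fin n → V) :
    ∃ k, IsLeast (Set.range fun u => H.dist (f u) (g u)) k := by
  have hne : (Set.range fun u => H.dist (f u) (g u)).Nonempty := ⟨_, ⟨0, hn⟩, rfl⟩
  exact ⟨sInf _, Nat.sInf_mem hne, fun a ha => Nat.sInf_le ha⟩

lemma bdd (H : SimpleGraph V) [Finite V] : ∃ B, ∀ x y : V, H.dist x y ≤ B := by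
  obtain ⟨B, hB⟩ := (Set.finite_range (fun p : V × V => H.dist p.1 p.2)).bddAbove
  exact ⟨B, fun x y => hB ⟨(x, y), rfl⟩⟩

lemma bddV (H : SimpleGraph V) [Finite V] : BddAbove (vertexValues H) := by
  obtain ⟨B, hB⟩ := bdd H
  refine ⟨B, ?_⟩
  rintro k ⟨n, hn, f, g, _, _, _, _, hk⟩
  exact (hk.2 ⟨⟨0, hn⟩, rfl⟩).trans (hB _ _)

lemma bddE (H : SimpleGraph V) [Finite V] : BddAbove (edgeValues H) := by
  obtain ⟨B, hB⟩ := bdd H
  refine ⟨B, ?_⟩
  rintro k ⟨n, hn, f, g, _, _, _, _, hk⟩
  exact (hk.2 ⟨⟨0, hn⟩, rfl⟩).trans (hB _ _)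

lemma edge_sub_vertex (H : SimpleGraph V) : edgeValues H ⊆ vertexValues H := by
  rintro k ⟨n, hn, f, g, h1, h2, h3, h4, h5⟩
  exact ⟨n, hn, f, g, h1, h2, h3.1, h4.1, h5⟩

/-- a list of pairs covering all edges in both coordinates gives a lower bound for `σ_E` -/
lemma le_edge_of_list [Finite V] (H : SimpleGraph V) (L : List (V × V)) (k : ℕ)
    (hne : L ≠ []) (hchain : L.IsChain (Step H)) (hdist : ∀ p ∈ L, k ≤ H.dist p.1 p.2)
    (hs1 : ∀ x, ∃ p ∈ L, p.1 = x) (hs2 : ∀ y, ∃ p ∈ L, p.2 = y)
    (he1 : ∀ x x', H.Adj x x' → ∃ y, [(x, y), (x', y)] <:+: L)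
    (he2 : ∀ y y', H.Adj y y' → ∃ x, [(x, y), (x, y')] <:+: L) :
    k ≤ strongEdgeSpan H := by
  have hlen : 1 ≤ L.length := by
    rcases L with _ | ⟨a, L⟩
    · exact absurd rfl hne
    · simp
  have hstep : ∀ (i j : Fin L.length), i.val + 1 = j.val → Step H (L.get i) (L.get j) := by
    intro i j hij
    have h1 := List.isChain_iff_getElem.1 hchain i.val (by omega)
    have e : L.get j = L[i.val + 1]'(by omega) := by
      simp only [List.get_eq_getElem]
      congr 1
      exact hij.symm
    rw [e]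
    exact h1
  have hweak1 : IsWeakHom (pathGraph L.length) H (fun i => (L.get i).1) := by
    intro i j hij
    rw [pathGraph_adj] at hij
    rcases hij with hij | hij
    · exact (hstep i j hij).1
    · rcases (hstep j i hij).1 with h | h
      · exact Or.inl h.symm
      · exact Or.inr h.symm
  have hweak2 : IsWeakHom (pathGraph L.length) H (fun i => (L.get i).2) := by
    intro i j hij
    rw [pathGraph_adj] at hij
    rcases hij with hij | hij
    · exact (hstep i j hij).2
    · rcases (hstep j i hij).2 with h | h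
      · exact Or.inl h.symm
      · exact Or.inr h.symm
  have hinfix : ∀ p q : V × V, [p, q] <:+: L → ∃ i j : Fin L.length,
      (pathGraph L.length).Adj i j ∧ L.get i = p ∧ L.get j = q := by
    rintro p q ⟨s, t, hst⟩
    have hl : L.length = s.length + 2 + t.length := by rw [← hst]; simp; omega
    refine ⟨⟨s.length, by omega⟩, ⟨s.length + 1, by omega⟩, ?_, ?_, ?_⟩
    · rw [pathGraph_adj]; exact Or.inl rfl
    · simp only [List.get_eq_getElem]
      have : L[s.length]? = some p := by
        rw [← hst]; simp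
      rw [List.getElem?_eq_getElem (by omega)] at this
      exact Option.some.inj this
    · simp only [List.get_eq_getElem]
      have : L[s.length + 1]? = some q := by
        rw [← hst]; simp
      rw [List.getElem?_eq_getElem (by omega)] at this
      exact Option.some.inj this
  obtain ⟨k', hk'⟩ := exists_least H hlen (fun i => (L.get i).1) (fun i => (L.get i).2)
  have hkk : k ≤ k' := by
    obtain ⟨i, hi⟩ := hk'.1
    rw [← hi]
    exact hdist _ (List.get_mem L i)
  refine hkk.trans (le_csSup (bddE H) ?_)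
  refine ⟨L.length, hlen, _, _, hweak1, hweak2, ⟨?_, ?_⟩, ⟨?_, ?_⟩, hk'⟩
  · intro x
    obtain ⟨p, hp, rfl⟩ := hs1 x
    obtain ⟨i, hi⟩ := List.get_of_mem hp
    exact ⟨i, by simp only [hi]⟩
  · intro x x' hxx'
    obtain ⟨y, hy⟩ := he1 x x' hxx'
    obtain ⟨i, j, hij, hi, hj⟩ := hinfix _ _ hy
    exact ⟨i, j, hij, by simp only [hi], by simp only [hj]⟩
  · intro y
    obtain ⟨p, hp, rfl⟩ := hs2 y
    obtain ⟨i, hi⟩ := List.get_of_mem hp
    exact ⟨i, by simp only [hi]⟩
  · intro y y' hyy'
    obtain ⟨x, hx⟩ := he2 y y' hyy'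
    obtain ⟨i, j, hij, hi, hj⟩ := hinfix _ _ hx
    exact ⟨i, j, hij, by simp only [hi], by simp only [hj]⟩

/-- visit all elements of the list `N` from `p`, returning to `p` each time -/
def detour (p : V × V) : List (V × V) → List (V × V)
  | [] => [p]
  | q :: N => p :: q :: detour p N

lemma detour_head (p : V × V) (N : List (V × V)) : ∃ t, detour p N = p :: t := by
  cases N with
  | nil => exact ⟨[], rfl⟩
  | cons q N => exact ⟨_, rfl⟩

lemma detour_chain (H : SimpleGraph V) (p : V × V) (N : List (V × V))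
    (hN : ∀ q ∈ N, Step H p q ∧ Step H q p) (M : List (V × V)) (hM : (p :: M).IsChain (Step H)) :
    (detour p N ++ M).IsChain (Step H) := by
  induction N with
  | nil => exact hM
  | cons q N ih =>
    obtain ⟨t, ht⟩ := detour_head p N
    have h1 := ih (fun r hr => hN r (List.mem_cons_of_mem _ hr))
    show (p :: q :: (detour p N ++ M)).IsChain (Step H)
    rw [ht] at h1 ⊢
    rw [List.cons_append] at h1 ⊢
    rw [List.isChain_cons_cons, List.isChain_cons_cons]
    exact ⟨(hN q List.mem_cons_self).1, (hN q List.mem_cons_self).2, h1⟩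

lemma detour_mem (p : V × V) (N : List (V × V)) (q : V × V) :
    q ∈ detour p N ↔ q = p ∨ q ∈ N := by
  induction N with
  | nil => simp [detour]
  | cons r N ih =>
    simp only [detour, List.mem_cons, ih]
    tauto

lemma detour_infix (p : V × V) (N : List (V × V)) (q : V × V) (hq : q ∈ N) :
    [p, q] <:+: detour p N := by
  induction N with
  | nil => simp at hq
  | cons r N ih =>
    rcases List.mem_cons.1 hq with rfl | hq
    · exact ⟨[], detour p N, rfl⟩
    · exact (ih hq).trans ⟨[p, r], [], by simp [detour]⟩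

/-- replace every pair by its detour -/
def expand (N : V × V → List (V × V)) : List (V × V) → List (V × V)
  | [] => []
  | p :: L => detour p (N p) ++ expand N L

lemma expand_chain (H : SimpleGraph V) (N : V × V → List (V × V))
    (hN : ∀ p, ∀ q ∈ N p, Step H p q ∧ Step H q p) (L : List (V × V)) (hL : L.IsChain (Step H)) :
    (expand N L).IsChain (Step H) := by
  induction L with
  | nil => exact List.isChain_nil
  | cons p L ih =>
    apply detour_chain H p (N p) (hN p)
    cases L with
    | nil => exact List.isChain_singleton _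
    | cons q L =>
      rw [List.isChain_cons_cons] at hL
      have h1 := ih hL.2
      obtain ⟨t, ht⟩ := detour_head q (N q)
      simp only [expand] at h1 ⊢
      rw [ht, List.cons_append] at h1 ⊢
      rw [List.isChain_cons_cons]
      exact ⟨hL.1, h1⟩

lemma expand_mem (N : V × V → List (V × V)) (L : List (V × V)) (q : V × V) :
    q ∈ expand N L ↔ ∃ p ∈ L, q = p ∨ q ∈ N p := by
  induction L with
  | nil => simp [expand]
  | cons r L ih =>
    simp only [expand, List.mem_append, detour_mem, ih, List.mem_cons, exists_eq_or_imp]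

lemma expand_infix (N : V × V → List (V × V)) (L : List (V × V)) (p : V × V) (hp : p ∈ L)
    (q : V × V) (hq : q ∈ N p) : [p, q] <:+: expand N L := by
  induction L with
  | nil => simp at hp
  | cons r L ih =>
    rcases List.mem_cons.1 hp with rfl | hp
    · exact (detour_infix p (N p) q hq).trans ⟨[], expand N L, by simp [expand]⟩
    · exact (ih hp).trans ⟨detour r (N r), [], by simp [expand]⟩

lemma vertex_le (H : SimpleGraph V) [Finite V] (hH : H.Connected) :
    strongVertexSpan H ≤ strongEdgeSpan H + 1 := by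
  classical
  have : Fintype V := Fintype.ofFinite V
  by_cases h0 : (vertexValues H).Nonempty
  · obtain ⟨n, hn, f, g, hf, hg, sf, sg, hk⟩ := Nat.sSup_mem h0 (bddV H)
    set k := sSup (vertexValues H) with hkdef
    let L : List (V × V) := List.ofFn (fun i => (f i, g i))
    let N : V × V → List (V × V) := fun p =>
      ((Finset.univ.filter fun x => H.Adj p.1 x).toList.map fun x => (x, p.2)) ++
        ((Finset.univ.filter fun y => H.Adj p.2 y).toList.map fun y => (p.1, y))
    have hNmem : ∀ p q, q ∈ N p ↔ (H.Adj p.1 q.1 ∧ q.2 = p.2) ∨ (q.1 = p.1 ∧ H.Adj p.2 q.2) := by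
      intro p q
      simp only [N, List.mem_append, List.mem_map, Finset.mem_toList, Finset.mem_filter,
        Finset.mem_univ, true_and]
      constructor
      · rintro (⟨x, hx, rfl⟩ | ⟨y, hy, rfl⟩)
        · exact Or.inl ⟨hx, rfl⟩
        · exact Or.inr ⟨rfl, hy⟩
      · rintro (⟨h1, h2⟩ | ⟨h1, h2⟩)
        · exact Or.inl ⟨q.1, h1, Prod.ext rfl h2.symm⟩
        · exact Or.inr ⟨q.2, h2, Prod.ext h1.symm rfl⟩
    have hNstep : ∀ p, ∀ q ∈ N p, Step H p q ∧ Step H q p := by
      intro p q hq
      rcases (hNmem p q).1 hq with ⟨h1, h2⟩ | ⟨h1, h2⟩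
      · exact ⟨⟨Or.inr h1, Or.inl h2.symm⟩, ⟨Or.inr h1.symm, Or.inl h2⟩⟩
      · exact ⟨⟨Or.inl h1.symm, Or.inr h2⟩, ⟨Or.inl h1, Or.inr h2.symm⟩⟩
    have hLchain : L.IsChain (Step H) := by
      rw [List.isChain_iff_getElem]
      intro i hi
      simp only [L, List.getElem_ofFn]
      simp only [L, List.length_ofFn] at hi
      have hadj : (pathGraph n).Adj ⟨i, by omega⟩ ⟨i + 1, hi⟩ := by
        rw [pathGraph_adj]; exact Or.inl rfl
      exact ⟨hf _ _ hadj, hg _ _ hadj⟩
    have hLmem : ∀ p ∈ L, k ≤ H.dist p.1 p.2 := by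
      intro p hp
      simp only [L, List.mem_ofFn] at hp
      obtain ⟨i, rfl⟩ := hp
      exact hk.2 ⟨i, rfl⟩
    have hmemL : ∀ i, (f i, g i) ∈ L := fun i => by
      simp only [L, List.mem_ofFn]; exact ⟨i, rfl⟩
    have hmem' : ∀ p ∈ L, p ∈ expand N L := fun p hp => (expand_mem N L p).2 ⟨p, hp, Or.inl rfl⟩
    have hmain : k - 1 ≤ strongEdgeSpan H := by
      apply le_edge_of_list H (expand N L) (k - 1)
      · intro h
        have := hmem' _ (hmemL ⟨0, hn⟩)
        rw [h] at this
        simp at this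
      · exact expand_chain H N hNstep L hLchain
      · intro q hq
        obtain ⟨p, hp, hpq⟩ := (expand_mem N L q).1 hq
        have h1 := hLmem p hp
        rcases hpq with rfl | hpq
        · omega
        · rcases (hNmem p q).1 hpq with ⟨h2, h3⟩ | ⟨h2, h3⟩
          · have h4 := hH.dist_triangle (u := p.1) (v := q.1) (w := p.2)
            have h5 := SimpleGraph.dist_eq_one_iff_adj.2 h2
            rw [h3]; omega
          · have h4 := hH.dist_triangle (u := p.1) (v := q.2) (w := p.2)
            have h5 := SimpleGraph.dist_eq_one_iff_adj.2 h3.symm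
            rw [h2]; omega
      · intro x
        obtain ⟨i, rfl⟩ := sf x
        exact ⟨_, hmem' _ (hmemL i), rfl⟩
      · intro y
        obtain ⟨i, rfl⟩ := sg y
        exact ⟨_, hmem' _ (hmemL i), rfl⟩
      · intro x x' hxx'
        obtain ⟨i, rfl⟩ := sf x
        exact ⟨g i, expand_infix N L _ (hmemL i) _ ((hNmem _ _).2 (Or.inl ⟨hxx', rfl⟩))⟩
      · intro y y' hyy'
        obtain ⟨i, rfl⟩ := sg y
        exact ⟨f i, expand_infix N L _ (hmemL i) _ ((hNmem _ _).2 (Or.inr ⟨rfl, hyy'⟩))⟩
    show k ≤ strongEdgeSpan H + 1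
    omega
  · rw [Set.not_nonempty_iff_eq_empty] at h0
    unfold strongVertexSpan
    rw [h0]
    simp

lemma edge_le (H : SimpleGraph V) [Finite V] : strongEdgeSpan H ≤ strongVertexSpan H := by
  by_cases h : (edgeValues H).Nonempty
  · exact csSup_le_csSup (bddV H) h (edge_sub_vertex H)
  · rw [Set.not_nonempty_iff_eq_empty] at h
    unfold strongEdgeSpan
    rw [h]
    simp

/-- the 3-sun -/
def sun : SimpleGraph (Fin 6) where
  Adj u v := (u ≠ v ∧ 3 ≤ u.val ∧ 3 ≤ v.val) ∨
    (u.val < 3 ∧ 3 ≤ v.val ∧ v.val ≠ u.val + 3) ∨ (v.val < 3 ∧ 3 ≤ u.val ∧ u.val ≠ v.val + 3)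
  symm := ⟨by
    intro u v h
    rcases h with ⟨h1, h2, h3⟩ | h | h
    · exact Or.inl ⟨h1.symm, h3, h2⟩
    · exact Or.inr (Or.inr h)
    · exact Or.inr (Or.inl h)⟩
  loopless := ⟨by
    intro u h
    rcases h with ⟨h1, _⟩ | h | h
    · exact h1 rfl
    · omega
    · omega⟩

instance : DecidableRel sun.Adj := fun u v =>
  inferInstanceAs (Decidable ((u ≠ v ∧ 3 ≤ u.val ∧ 3 ≤ v.val) ∨
    (u.val < 3 ∧ 3 ≤ v.val ∧ v.val ≠ u.val + 3) ∨ (v.val < 3 ∧ 3 ≤ u.val ∧ u.val ≠ v.val + 3)))

lemma sun_connected : sun.Connected := by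
  have h : ∀ u v : Fin 6, u = v ∨ sun.Adj u v ∨ ∃ w, sun.Adj u w ∧ sun.Adj w v := by decide
  refine ⟨fun u v => ?_⟩
  rcases h u v with rfl | h | ⟨w, h1, h2⟩
  · exact SimpleGraph.Reachable.refl _
  · exact h.reachable
  · exact h1.reachable.trans h2.reachable

lemma two_le_dist_iff (u v : Fin 6) : 2 ≤ sun.dist u v ↔ u ≠ v ∧ ¬ sun.Adj u v := by
  constructor
  · intro h
    constructor
    · rintro rfl
      rw [SimpleGraph.dist_self] at h
      omega
    · intro h'
      rw [SimpleGraph.dist_eq_one_iff_adj.2 h'] at h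
      omega
  · rintro ⟨h1, h2⟩
    have h3 : sun.dist u v ≠ 0 := fun h => h1 ((sun_connected.dist_eq_zero_iff).1 h)
    have h4 : sun.dist u v ≠ 1 := fun h => h2 (SimpleGraph.dist_eq_one_iff_adj.1 h)
    omega

lemma sun_vertex : 2 ≤ strongVertexSpan sun := by
  let f : Fin 6 → Fin 6 := ![3, 2, 4, 0, 5, 1]
  let g : Fin 6 → Fin 6 := ![0, 5, 1, 3, 2, 4]
  have hd : ∀ i, 2 ≤ sun.dist (f i) (g i) := by
    intro i
    rw [two_le_dist_iff]
    revert i
    decide
  obtain ⟨k, hk⟩ := exists_least sun (by norm_num) f g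
  have hk2 : 2 ≤ k := by
    obtain ⟨i, hi⟩ := hk.1
    rw [← hi]
    exact hd i
  have hf : ∀ i j : Fin 6, (i.val + 1 = j.val ∨ j.val + 1 = i.val) →
      f i = f j ∨ sun.Adj (f i) (f j) := by decide
  have hg : ∀ i j : Fin 6, (i.val + 1 = j.val ∨ j.val + 1 = i.val) →
      g i = g j ∨ sun.Adj (g i) (g j) := by decide
  refine hk2.trans (le_csSup (bddV sun) ⟨6, by norm_num, f, g, ?_, ?_, by decide, by decide, hk⟩)
  · intro i j hij
    exact hf i j (pathGraph_adj.1 hij)
  · intro i j hij
    exact hg i j (pathGraph_adj.1 hij)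

lemma sun_edge : strongEdgeSpan sun ≤ 1 := by
  by_cases h : (edgeValues sun).Nonempty
  · have h1 := Nat.sSup_mem h (bddE sun)
    by_contra hlt
    push Not at hlt
    have h2 : 2 ≤ sSup (edgeValues sun) := hlt
    obtain ⟨n, hn, f, g, hf, hg, sf, sg, hk⟩ := h1
    obtain ⟨i, j, hij, hi, hj⟩ := sf.2 3 4 (by decide)
    have hd : ∀ i, 2 ≤ sun.dist (f i) (g i) := fun i => h2.trans (hk.2 ⟨i, rfl⟩)
    have h3 := (two_le_dist_iff _ _).1 (hd i)
    have h4 := (two_le_dist_iff _ _).1 (hd j)
    rw [hi] at h3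
    rw [hj] at h4
    have h5 := hg _ _ hij
    have key : ∀ y y' : Fin 6, (3 ≠ y ∧ ¬ sun.Adj 3 y) → (4 ≠ y' ∧ ¬ sun.Adj 4 y') →
        ¬ (y = y' ∨ sun.Adj y y') := by decide
    exact key _ _ h3 h4 h5
  · rw [Set.not_nonempty_iff_eq_empty] at h
    unfold strongEdgeSpan
    rw [h]
    simp

/-- For every finite connected graph `H`, `σ_E(H) ≤ σ_V(H) ≤ σ_E(H) + 1`, and
`σ_V(H) = σ_E(H) + 1` for some finite connected graph `H`: the maximum of `σ_V(H) - σ_E(H)`
over all finite connected graphs is `1`. -/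
theorem result :
    (∀ (V : Type) (_ : Finite V) (H : SimpleGraph V), H.Connected →
      strongEdgeSpan H ≤ strongVertexSpan H ∧ strongVertexSpan H ≤ strongEdgeSpan H + 1) ∧
    ∃ (V : Type) (_ : Finite V) (H : SimpleGraph V), H.Connected ∧
      strongVertexSpan H = strongEdgeSpan H + 1 := by
  refine ⟨fun V _ H hH => ⟨edge_le H, vertex_le H hH⟩, Fin 6, inferInstance, sun, sun_connected, ?_⟩
  have h1 := sun_vertex
  have h2 := sun_edge
  have h3 := vertex_le sun sun_connected
  omega

end Pool.Agent.Results.MP_5796a1_co.MaximumGap
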